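import Pool.Agent.W528.HD.Stm
import Pool.Agent.W800.HA.GD

/-! Project HD: bound for the sums in two variables. -/

set_option autoImplicit false

namespace Pool.Agent.W940.HD.GE

open Finset Polynomial Pool.Agent.W528.HA Pool.Agent.W800.HA.GD

theorem main : Pool.Agent.W528.HD.GE := by
  classical
  intro c _ L _ _ _ ψ hψ D ι _ l f hf χ hχ τ B hB hτ
  have key : (∏ i, gaussSum (χ i)⁻¹ ψ) *
      ∑ x : L, ∑ t : L, τ t * ∏ i, χ i (l i * x + (f i).eval t)
      = ∑ u : ι → L, (∏ i, (χ i)⁻¹ (u i)) * ((∑ x : L, ψ (x * ∑ i, u i * l i)) *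
        (∑ t : L, τ t * ψ ((∑ i, C (u i) * f i).eval t))) := by
    have h1 : ∀ x t : L, (∏ i, gaussSum (χ i)⁻¹ ψ) * ∏ i, χ i (l i * x + (f i).eval t)
        = ∑ u : ι → L, (∏ i, (χ i)⁻¹ (u i)) *
          (ψ (x * ∑ i, u i * l i) * ψ ((∑ i, C (u i) * f i).eval t)) := by
      intro x t
      rw [← prod_mul_distrib]
      have h2 : ∀ i, gaussSum (χ i)⁻¹ ψ * χ i (l i * x + (f i).eval t)
          = ∑ s : L, (χ i)⁻¹ s * ψ (s * (l i * x + (f i).eval t)) := fun i => one (χ i) ψ (hχ i) _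
      rw [prod_congr rfl (fun i _ => h2 i), Finset.prod_univ_sum, Fintype.piFinset_univ]
      apply sum_congr rfl
      intro u _
      rw [prod_mul_distrib]
      congr 1
      rw [← msum, ← AddChar.map_add_eq_mul]
      congr 1
      rw [eval_finset_sum, mul_sum, ← sum_add_distrib]
      apply sum_congr rfl
      intro i _
      rw [eval_mul, eval_C]
      ring
    rw [mul_sum]
    have h3 : ∀ x : L, (∏ i, gaussSum (χ i)⁻¹ ψ) *
        ∑ t : L, τ t * ∏ i, χ i (l i * x + (f i).eval t)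
        = ∑ u : ι → L, (∏ i, (χ i)⁻¹ (u i)) * (ψ (x * ∑ i, u i * l i) *
          (∑ t : L, τ t * ψ ((∑ i, C (u i) * f i).eval t))) := by
      intro x
      rw [mul_sum]
      have h4 : ∀ t : L, (∏ i, gaussSum (χ i)⁻¹ ψ) * (τ t * ∏ i, χ i (l i * x + (f i).eval t))
          = ∑ u : ι → L, (∏ i, (χ i)⁻¹ (u i)) *
            (ψ (x * ∑ i, u i * l i) * (τ t * ψ ((∑ i, C (u i) * f i).eval t))) := by
        intro t
        rw [mul_left_comm, h1, mul_sum]
        apply sum_congr rfl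
        intro u _
        ring
      rw [sum_congr rfl (fun t _ => h4 t), sum_comm]
      apply sum_congr rfl
      intro u _
      rw [← mul_sum, ← mul_sum]
    rw [sum_congr rfl (fun x _ => h3 x), sum_comm]
    apply sum_congr rfl
    intro u _
    rw [← mul_sum, ← sum_mul]
  rw [← norm_prod, ← norm_mul, key]
  apply IsUltrametricDist.norm_sum_le_of_forall_le_of_nonneg
    (mul_nonneg (norm_nonneg _) hB)
  intro u _
  rw [norm_mul, norm_mul]
  have h1 : ‖∏ i, (χ i)⁻¹ (u i)‖ ≤ 1 := by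
    rw [norm_prod]
    exact prod_le_one (fun i _ => norm_nonneg _) fun i _ => mulChar_norm_le _ _
  have h2 : ‖∑ x : L, ψ (x * ∑ i, u i * l i)‖ ≤ ‖((Fintype.card L : ℕ) : PadicAlgCl c)‖ := by
    have h6 := AddChar.sum_mulShift (ψ := ψ) (∑ i, u i * l i) hψ
    rw [h6]
    split_ifs
    · exact le_rfl
    · push_cast
      rw [norm_zero]
      exact norm_nonneg _
  have h3 : ‖∑ t : L, τ t * ψ ((∑ i, C (u i) * f i).eval t)‖ ≤ B := by
    apply hτ
    apply natDegree_sum_le_of_forall_le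
    intro i _
    exact (natDegree_C_mul_le _ _).trans (hf i)
  calc _ ≤ 1 * (‖((Fintype.card L : ℕ) : PadicAlgCl c)‖ * B) :=
        mul_le_mul h1 (mul_le_mul h2 h3 (norm_nonneg _) (norm_nonneg _))
          (mul_nonneg (norm_nonneg _) (norm_nonneg _)) zero_le_one
    _ = _ := one_mul _

end Pool.Agent.W940.HD.GE
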